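import Pool.Agent.helper33.RF.SpecL

/-!
# MP_16912e_nt, project RF, row YLP: labels at one prime element
-/

set_option autoImplicit false

namespace Pool.Agent.RF

open NumberField

section

variable {R : Type} [CommRing R]

/-- valuation calculus -/
structure YLP_V (π : R) : Prop where
  v1 : ∀ (x y : R) (j m : ℕ), π ^ j ∣ x * y → ¬ π ^ (m + 1) ∣ y → π ^ (j - m) ∣ x
  v2 : ∀ (x y : R) (j m : ℕ), ¬ π ^ (j + 1) ∣ x → ¬ π ^ (m + 1) ∣ y → ¬ π ^ (j + m + 1) ∣ x * y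
  v3 : ∀ (x y : R) (m : ℕ), π ^ m ∣ y → ¬ π ^ m ∣ x → ¬ π ^ m ∣ x + y

/-- case A -/
theorem YLP_A {π : R} (V : YLP_V π) (h5 : ¬ π ^ (0 + 1) ∣ (5 : R)) (W a b : R) (c J : ℕ)
    (h1 : π ^ J ∣ b * (5 * a ^ 4 + 10 * a ^ 2 * b ^ 2 * W + b ^ 4 * W ^ 2)) (h2 : ¬ π ^ (2 * c + 1) ∣ a ^ 2 - b ^ 2 * W)
    (hb : π ^ (2 * c + 1) ∣ b) : π ^ (J - 4 * c) ∣ b := by
  have hb2 : π ^ (4 * c + 1) ∣ b ^ 2 := by
    have h := mul_dvd_mul hb hb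
    rw [← pow_add, ← pow_two] at h
    exact (pow_dvd_pow π (by omega)).trans h
  have ha2 : ¬ π ^ (2 * c + 1) ∣ a ^ 2 := by
    intro h
    exact h2 (dvd_sub h (((pow_dvd_pow π (by omega)).trans hb2).mul_right W))
  have ha4 : ¬ π ^ (2 * c + 2 * c + 1) ∣ a ^ 2 * a ^ 2 := V.v2 _ _ _ _ ha2 ha2
  have ha5 : ¬ π ^ (0 + (2 * c + 2 * c) + 1) ∣ 5 * (a ^ 2 * a ^ 2) := V.v2 _ _ _ _ h5 ha4
  have hr : π ^ (0 + (2 * c + 2 * c) + 1) ∣ b ^ 2 * (10 * a ^ 2 * W + b ^ 2 * W ^ 2) :=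
    ((pow_dvd_pow π (by omega)).trans hb2).mul_right _
  have h3 := V.v3 _ _ _ hr ha5
  rw [show 5 * (a ^ 2 * a ^ 2) + b ^ 2 * (10 * a ^ 2 * W + b ^ 2 * W ^ 2) = 5 * a ^ 4 + 10 * a ^ 2 * b ^ 2 * W + b ^ 4 * W ^ 2 by ring] at h3
  have h4 := V.v1 _ _ _ _ h1 h3
  rwa [show J - (0 + (2 * c + 2 * c)) = J - 4 * c by omega] at h4

/-- case B -/
theorem YLP_B {π : R} (V : YLP_V π) (s : R) (hs : s * s = 5) (h2' : ¬ π ^ (0 + 1) ∣ (4 : R)) (hm : ¬ π ^ (0 + 1) ∣ s - 2) (hp : ¬ π ^ (0 + 1) ∣ s + 2)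
    (W a b : R) (c J : ℕ) (hW : ¬ π ^ (1 + 1) ∣ W) (hc : 1 ≤ c) (hJ : 13 * c < J)
    (h1 : π ^ J ∣ b * (5 * a ^ 4 + 10 * a ^ 2 * b ^ 2 * W + b ^ 4 * W ^ 2))
    (hb : ¬ π ^ (2 * c + 1) ∣ b) :
    ¬ π ^ (2 * c + 1) ∣ a ∧ (π ^ (J - 6 * c - 1) ∣ s * a ^ 2 + (s - 2) * (b ^ 2 * W) ∨ π ^ (J - 6 * c - 1) ∣ s * a ^ 2 + (s + 2) * (b ^ 2 * W)) ∧
      (π ^ (4 * c + 2) ∣ s * a ^ 2 + (s - 2) * (b ^ 2 * W) → π ^ (J - 6 * c - 1) ∣ s * a ^ 2 + (s - 2) * (b ^ 2 * W)) ∧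
      (¬ π ^ (4 * c + 2) ∣ s * a ^ 2 + (s - 2) * (b ^ 2 * W) → π ^ (J - 6 * c - 1) ∣ s * a ^ 2 + (s + 2) * (b ^ 2 * W)) := by
  have hb2 : ¬ π ^ (2 * c + 2 * c + 1) ∣ b * b := V.v2 _ _ _ _ hb hb
  have hbW : ¬ π ^ (2 * c + 2 * c + 1 + 1) ∣ (b * b) * W := V.v2 _ _ _ _ hb2 hW
  have hbW' : ¬ π ^ ((4 * c + 1) + 1) ∣ b ^ 2 * W := by
    rw [pow_two]
    rwa [show 2 * c + 2 * c + 1 + 1 = (4 * c + 1) + 1 by omega] at hbW
  have hH : π ^ (J - 2 * c) ∣ 5 * a ^ 4 + 10 * a ^ 2 * b ^ 2 * W + b ^ 4 * W ^ 2 := by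
    rw [mul_comm] at h1
    exact V.v1 _ _ _ _ h1 hb
  have e : 5 * a ^ 4 + 10 * a ^ 2 * b ^ 2 * W + b ^ 4 * W ^ 2 = (s * a ^ 2 + (s - 2) * (b ^ 2 * W)) * (s * a ^ 2 + (s + 2) * (b ^ 2 * W)) := by
    linear_combination (-(a ^ 4) - 2 * a ^ 2 * b ^ 2 * W - b ^ 4 * W ^ 2) * hs
  rw [e] at hH
  have h4 : ¬ π ^ (0 + (4 * c + 1) + 1) ∣ 4 * (b ^ 2 * W) := V.v2 _ _ _ _ h2' hbW'
  have c1 : π ^ (4 * c + 2) ∣ s * a ^ 2 + (s - 2) * (b ^ 2 * W) → π ^ (J - 6 * c - 1) ∣ s * a ^ 2 + (s - 2) * (b ^ 2 * W) := by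
    intro h
    have h5 : ¬ π ^ ((4 * c + 1) + 1) ∣ s * a ^ 2 + (s + 2) * (b ^ 2 * W) := by
      intro h6
      refine h4 ?_
      rw [show 0 + (4 * c + 1) + 1 = 4 * c + 2 by omega]
      have h7 := dvd_sub h6 h
      rwa [show (s * a ^ 2 + (s + 2) * (b ^ 2 * W)) - (s * a ^ 2 + (s - 2) * (b ^ 2 * W)) = 4 * (b ^ 2 * W) by ring] at h7
    have h8 := V.v1 _ _ _ _ hH h5
    rwa [show J - 2 * c - (4 * c + 1) = J - 6 * c - 1 by omega] at h8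
  have c2 : ¬ π ^ (4 * c + 2) ∣ s * a ^ 2 + (s - 2) * (b ^ 2 * W) → π ^ (J - 6 * c - 1) ∣ s * a ^ 2 + (s + 2) * (b ^ 2 * W) := by
    intro h
    have hH' := hH
    rw [mul_comm (s * a ^ 2 + (s - 2) * (b ^ 2 * W))] at hH'
    have h8 := V.v1 _ _ _ (4 * c + 1) hH' h
    rwa [show J - 2 * c - (4 * c + 1) = J - 6 * c - 1 by omega] at h8
  refine ⟨?_, ?_, c1, c2⟩
  · intro ha
    have ha2 : π ^ ((4 * c + 1) + 1) ∣ s * a ^ 2 := by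
      have h := mul_dvd_mul ha ha
      rw [← pow_add, ← pow_two] at h
      exact ((pow_dvd_pow π (by omega)).trans h).mul_left s
    have k1 : ¬ π ^ (0 + (4 * c + 1) + 1) ∣ (s - 2) * (b ^ 2 * W) := V.v2 _ _ _ _ hm hbW'
    have k2 : ¬ π ^ (0 + (4 * c + 1) + 1) ∣ (s + 2) * (b ^ 2 * W) := V.v2 _ _ _ _ hp hbW'
    rw [show 0 + (4 * c + 1) + 1 = (4 * c + 1) + 1 by omega] at k1 k2
    have k3 := V.v3 _ _ _ ha2 k1
    have k4 := V.v3 _ _ _ ha2 k2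
    rw [add_comm ((s - 2) * (b ^ 2 * W))] at k3
    rw [add_comm ((s + 2) * (b ^ 2 * W))] at k4
    have k5 := V.v2 _ _ _ _ k3 k4
    exact k5 ((pow_dvd_pow π (by omega)).trans hH)
  · by_cases h : π ^ (4 * c + 2) ∣ s * a ^ 2 + (s - 2) * (b ^ 2 * W)
    · exact Or.inl (c1 h)
    · exact Or.inr (c2 h)

/-- two elements of the same class -/
theorem YLP_two {π : R} (V : YLP_V π) (s u : R) (hs' : ¬ π ^ (0 + 1) ∣ s) (h2 : ¬ π ^ (0 + 1) ∣ (2 : R)) (W a b a1 b1 : R) (c K : ℕ)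
    (h : π ^ K ∣ s * a ^ 2 + u * (b ^ 2 * W)) (h' : π ^ K ∣ s * a1 ^ 2 + u * (b1 ^ 2 * W)) (ha : ¬ π ^ (2 * c + 1) ∣ a) (hb : ¬ π ^ (2 * c + 1) ∣ b1) :
    (π ^ (4 * c + 1) ∣ a * b1 - a1 * b → π ^ (K - 4 * c) ∣ a * b1 - a1 * b) ∧
      (¬ π ^ (4 * c + 1) ∣ a * b1 - a1 * b → π ^ (K - 4 * c) ∣ a * b1 + a1 * b) := by
  have e : ((a * b1 - a1 * b) * (a * b1 + a1 * b)) * s = b1 ^ 2 * (s * a ^ 2 + u * (b ^ 2 * W)) - b ^ 2 * (s * a1 ^ 2 + u * (b1 ^ 2 * W)) := by ring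
  have h3 : π ^ K ∣ ((a * b1 - a1 * b) * (a * b1 + a1 * b)) * s := by
    rw [e]
    exact dvd_sub (h.mul_left _) (h'.mul_left _)
  have h4 := V.v1 _ _ _ _ h3 hs'
  rw [Nat.sub_zero] at h4
  have hab : ¬ π ^ (2 * c + 2 * c + 1) ∣ a * b1 := V.v2 _ _ _ _ ha hb
  have h2ab : ¬ π ^ (0 + (2 * c + 2 * c) + 1) ∣ 2 * (a * b1) := V.v2 _ _ _ _ h2 hab
  rw [show 0 + (2 * c + 2 * c) + 1 = 4 * c + 1 by omega] at h2ab
  constructor
  · intro hD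
    refine V.v1 _ _ _ _ h4 ?_
    intro hS
    refine h2ab ?_
    have h5 := dvd_add hD hS
    rwa [show (a * b1 - a1 * b) + (a * b1 + a1 * b) = 2 * (a * b1) by ring] at h5
  · intro hD
    rw [mul_comm] at h4
    exact V.v1 _ _ _ _ h4 hD

/-- two elements with the same sign with respect to the reference -/
theorem YLP_same {π : R} (V : YLP_V π) (s u : R) (hs' : ¬ π ^ (0 + 1) ∣ s) (h2 : ¬ π ^ (0 + 1) ∣ (2 : R)) (W a b a1 b1 a0 b0 : R) (c K : ℕ)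
    (h : π ^ K ∣ s * a ^ 2 + u * (b ^ 2 * W)) (h' : π ^ K ∣ s * a1 ^ 2 + u * (b1 ^ 2 * W)) (h0 : π ^ K ∣ s * a0 ^ 2 + u * (b0 ^ 2 * W))
    (ha : ¬ π ^ (2 * c + 1) ∣ a) (ha1 : ¬ π ^ (2 * c + 1) ∣ a1) (hb0 : ¬ π ^ (2 * c + 1) ∣ b0)
    (hsg : π ^ (4 * c + 1) ∣ a * b0 - a0 * b ↔ π ^ (4 * c + 1) ∣ a1 * b0 - a0 * b1) : π ^ (K - 4 * c - 2 * c) ∣ a * b1 - a1 * b := by
  obtain ⟨p1, p2⟩ := YLP_two V s u hs' h2 W a b a0 b0 c K h h0 ha hb0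
  obtain ⟨q1, q2⟩ := YLP_two V s u hs' h2 W a1 b1 a0 b0 c K h' h0 ha1 hb0
  refine V.v1 _ b0 _ _ ?_ hb0
  by_cases hD : π ^ (4 * c + 1) ∣ a * b0 - a0 * b
  · have r1 := p1 hD
    have r2 := q1 (hsg.1 hD)
    rw [show (a * b1 - a1 * b) * b0 = b1 * (a * b0 - a0 * b) - b * (a1 * b0 - a0 * b1) by ring]
    exact dvd_sub (r1.mul_left _) (r2.mul_left _)
  · have r1 := p2 hD
    have r2 := q2 (fun h => hD (hsg.2 h))
    rw [show (a * b1 - a1 * b) * b0 = b1 * (a * b0 + a0 * b) - b * (a1 * b0 + a0 * b1) by ring]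
    exact dvd_sub (r1.mul_left _) (r2.mul_left _)

end

theorem YLP_r5 : r5 * r5 = (5 : OO) := by
  ext <;> rfl

theorem YLP (hYVM : YVM_stmt) : YLP_stmt := by
  classical
  intro π W c J hπ h2 h5 hW hc
  obtain ⟨g1, g2, g3⟩ := hYVM π hπ
  have V : YLP_V π := ⟨g1, g2, g3⟩
  have n2 : ¬ π ^ (0 + 1) ∣ (2 : OO) := by rw [zero_add, pow_one]; exact h2
  have ns : ¬ π ^ (0 + 1) ∣ r5 := by rw [zero_add, pow_one]; exact h5
  have n5 : ¬ π ^ (0 + 1) ∣ (5 : OO) := by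
    rw [zero_add, pow_one, ← YLP_r5]
    intro h
    rcases hπ.dvd_or_dvd h with h | h <;> exact h5 h
  have n4 : ¬ π ^ (0 + 1) ∣ (4 : OO) := by
    rw [zero_add, pow_one, show (4 : OO) = 2 * 2 by norm_num]
    intro h
    rcases hπ.dvd_or_dvd h with h | h <;> exact h2 h
  have hu : (r5 - 2) * (r5 + 2) = (1 : OO) := by
    linear_combination YLP_r5
  have nm : ¬ π ^ (0 + 1) ∣ r5 - 2 := by
    rw [zero_add, pow_one]
    intro h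
    have h1 := h.mul_right (r5 + 2)
    rw [hu] at h1
    exact hπ.not_isUnit (isUnit_of_dvd_one h1)
  have np : ¬ π ^ (0 + 1) ∣ r5 + 2 := by
    rw [zero_add, pow_one]
    intro h
    have h1 := h.mul_left (r5 - 2)
    rw [hu] at h1
    exact hπ.not_isUnit (isUnit_of_dvd_one h1)
  have nW : ¬ π ^ (1 + 1) ∣ W := hW
  obtain ⟨P1, hP1⟩ : ∃ P1 : OO × OO → Prop, P1 = fun x => π ^ (J - 6 * c - 1) ∣ r5 * x.1 ^ 2 + (r5 - 2) * (x.2 ^ 2 * W) ∧ ¬ π ^ (2 * c + 1) ∣ x.1 ∧ ¬ π ^ (2 * c + 1) ∣ x.2 := ⟨_, rfl⟩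
  obtain ⟨P2, hP2⟩ : ∃ P2 : OO × OO → Prop, P2 = fun x => π ^ (J - 6 * c - 1) ∣ r5 * x.1 ^ 2 + (r5 + 2) * (x.2 ^ 2 * W) ∧ ¬ π ^ (2 * c + 1) ∣ x.1 ∧ ¬ π ^ (2 * c + 1) ∣ x.2 := ⟨_, rfl⟩
  have ex : ∀ P : OO × OO → Prop, ∃ r, ∀ x, P x → P r := by
    intro P
    by_cases h : ∃ x, P x
    · obtain ⟨r, hr⟩ := h
      exact ⟨r, fun _ _ => hr⟩
    · exact ⟨0, fun x hx => absurd ⟨x, hx⟩ h⟩
  obtain ⟨r1, hr1⟩ := ex P1
  obtain ⟨r2, hr2⟩ := ex P2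
  refine ⟨fun x => if π ^ (2 * c + 1) ∣ x.2 then 0 else if π ^ (4 * c + 2) ∣ r5 * x.1 ^ 2 + (r5 - 2) * (x.2 ^ 2 * W) then
    (if π ^ (4 * c + 1) ∣ x.1 * r1.2 - r1.1 * x.2 then 1 else 2) else (if π ^ (4 * c + 1) ∣ x.1 * r2.2 - r2.1 * x.2 then 3 else 4), ?_⟩
  intro x y hx hx' hy hy' hl
  rcases Nat.lt_or_ge (13 * c) J with hJ | hJ
  swap
  · rw [show J - 13 * c = 0 by omega, pow_zero]
    exact one_dvd _
  unfold HH at hx hy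
  dsimp only at hl
  by_cases ax : π ^ (2 * c + 1) ∣ x.2
  · by_cases ay : π ^ (2 * c + 1) ∣ y.2
    · have h1 := YLP_A V n5 W x.1 x.2 c J hx hx' ax
      have h2 := YLP_A V n5 W y.1 y.2 c J hy hy' ay
      have h3 : π ^ (J - 13 * c) ∣ π ^ (J - 4 * c) := pow_dvd_pow π (by omega)
      exact dvd_sub ((h3.trans h2).mul_left _) ((h3.trans h1).mul_left _)
    · exfalso
      rw [if_pos ax, if_neg ay] at hl
      revert hl
      split_ifs <;> decide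
  · by_cases ay : π ^ (2 * c + 1) ∣ y.2
    · exfalso
      rw [if_neg ax, if_pos ay] at hl
      revert hl
      split_ifs <;> decide
    · rw [if_neg ax, if_neg ay] at hl
      obtain ⟨xa, -, xc1, xc2⟩ := YLP_B V r5 YLP_r5 n4 nm np W x.1 x.2 c J nW hc hJ hx ax
      obtain ⟨ya, -, yc1, yc2⟩ := YLP_B V r5 YLP_r5 n4 nm np W y.1 y.2 c J nW hc hJ hy ay
      have h3 : π ^ (J - 13 * c) ∣ π ^ (J - 6 * c - 1 - 4 * c - 2 * c) := pow_dvd_pow π (by omega)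
      by_cases bx : π ^ (4 * c + 2) ∣ r5 * x.1 ^ 2 + (r5 - 2) * (x.2 ^ 2 * W)
      · by_cases by' : π ^ (4 * c + 2) ∣ r5 * y.1 ^ 2 + (r5 - 2) * (y.2 ^ 2 * W)
        · rw [if_pos bx, if_pos by'] at hl
          have hx1 : P1 x := by rw [hP1]; exact ⟨xc1 bx, xa, ax⟩
          have h0 : P1 r1 := hr1 x hx1
          rw [hP1] at h0
          obtain ⟨h01, h02, h03⟩ := h0
          refine h3.trans (YLP_same V r5 (r5 - 2) ns n2 W x.1 x.2 y.1 y.2 r1.1 r1.2 c _ (xc1 bx) (yc1 by') h01 xa ya h03 ?_)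
          by_cases sx : π ^ (4 * c + 1) ∣ x.1 * r1.2 - r1.1 * x.2
          · by_cases sy : π ^ (4 * c + 1) ∣ y.1 * r1.2 - r1.1 * y.2
            · exact iff_of_true sx sy
            · rw [if_pos sx, if_neg sy] at hl
              exact absurd hl (by decide)
          · by_cases sy : π ^ (4 * c + 1) ∣ y.1 * r1.2 - r1.1 * y.2
            · rw [if_neg sx, if_pos sy] at hl
              exact absurd hl (by decide)
            · exact iff_of_false sx sy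
        · exfalso
          rw [if_pos bx, if_neg by'] at hl
          revert hl
          split_ifs <;> decide
      · by_cases by' : π ^ (4 * c + 2) ∣ r5 * y.1 ^ 2 + (r5 - 2) * (y.2 ^ 2 * W)
        · exfalso
          rw [if_neg bx, if_pos by'] at hl
          revert hl
          split_ifs <;> decide
        · rw [if_neg bx, if_neg by'] at hl
          have hx1 : P2 x := by rw [hP2]; exact ⟨xc2 bx, xa, ax⟩
          have h0 : P2 r2 := hr2 x hx1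
          rw [hP2] at h0
          obtain ⟨h01, h02, h03⟩ := h0
          refine h3.trans (YLP_same V r5 (r5 + 2) ns n2 W x.1 x.2 y.1 y.2 r2.1 r2.2 c _ (xc2 bx) (yc2 by') h01 xa ya h03 ?_)
          by_cases sx : π ^ (4 * c + 1) ∣ x.1 * r2.2 - r2.1 * x.2
          · by_cases sy : π ^ (4 * c + 1) ∣ y.1 * r2.2 - r2.1 * y.2
            · exact iff_of_true sx sy
            · rw [if_pos sx, if_neg sy] at hl
              exact absurd hl (by decide)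
          · by_cases sy : π ^ (4 * c + 1) ∣ y.1 * r2.2 - r2.1 * y.2
            · rw [if_neg sx, if_pos sy] at hl
              exact absurd hl (by decide)
            · exact iff_of_false sx sy

end Pool.Agent.RF
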